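import Mathlib

set_option autoImplicit false

/-!
# Trace bounds for banded Toeplitz-Hessenberg substochastic matrices

For a bandwidth `k` the implication (if `Tr A ^ l ≤ 1` for `1 ≤ l ≤ k + 1` then `Tr A ^ l ≤ 1` for all
`l ≥ 1`) holds for all admissible matrices `A` of all orders if and only if `k ≤ 1`. For `k ≥ 2` it
fails for a matrix `A = a I + b C` of order `N = k + 1`, where `C` is the cyclic permutation matrix,
`a = 1 / N` and `b ^ N = 1 / N - 1 / N ^ N`, and for the exponent `l = k + 2`.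
-/

namespace Pool.Agent.Results.MP_e73184_al.TraceBounds

open Matrix Finset

/-- `A` is admissible for `k`: it is nonnegative and substochastic, above the diagonal only entries
at distance `1` may be nonzero, below the diagonal only entries at distance at most `k` may be
nonzero, and there are numbers `c 0, …, c k ≥ 0` such that the entries of `A` at distance `l ≤ k`
below the diagonal (on the diagonal for `l = 0`) are all equal to `c l`. -/
def Admissible {n : ℕ} (k : ℕ) (A : Matrix (Fin n) (Fin n) ℝ) : Prop :=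
  (∀ i j, 0 ≤ A i j) ∧
  (∀ j, ∑ i, A i j ≤ 1) ∧ (∀ i, ∑ j, A i j ≤ 1) ∧
  (∀ i j : Fin n, (i : ℕ) + 2 ≤ j → A i j = 0) ∧
  (∀ i j : Fin n, (j : ℕ) + k < i → A i j = 0) ∧
  ∃ c : ℕ → ℝ, ∀ l ≤ k, 0 ≤ c l ∧ ∀ i j : Fin n, (i : ℕ) = (j : ℕ) + l → A i j = c l

/-! ### The counterexamples -/

section Cyc

variable {k : ℕ}

/-- The cyclic permutation matrix of order `k + 1`. -/
def cyc (k : ℕ) : Matrix (Fin (k + 1)) (Fin (k + 1)) ℝ :=
  fun i j => if (j : ℕ) = ((i : ℕ) + 1) % (k + 1) then 1 else 0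

theorem cyc_pow (m : ℕ) (i j : Fin (k + 1)) :
    (cyc k ^ m) i j = if (j : ℕ) = ((i : ℕ) + m) % (k + 1) then (1 : ℝ) else 0 := by
  induction m generalizing j with
  | zero =>
    rw [pow_zero, Matrix.one_apply, add_zero, Nat.mod_eq_of_lt i.isLt]
    refine if_congr ?_ rfl rfl
    rw [Fin.ext_iff, eq_comm]
  | succ m ih =>
    rw [pow_succ, Matrix.mul_apply, Finset.sum_eq_single
      (⟨((i : ℕ) + m) % (k + 1), Nat.mod_lt _ (Nat.succ_pos k)⟩ : Fin (k + 1))]
    · rw [ih]
      simp [cyc, add_assoc]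
    · intro b _ hb
      have : ¬ ((b : ℕ) = ((i : ℕ) + m) % (k + 1)) := fun h => hb (Fin.ext h)
      rw [ih, if_neg this, zero_mul]
    · intro h
      exact absurd (mem_univ _) h

theorem trace_cyc_pow (m : ℕ) :
    Matrix.trace (cyc k ^ m) = if (k + 1) ∣ m then ((k + 1 : ℕ) : ℝ) else 0 := by
  have h : ∀ i : Fin (k + 1), ((i : ℕ) = ((i : ℕ) + m) % (k + 1)) ↔ (k + 1) ∣ m := by
    intro i
    constructor
    · intro h
      have h1 : ((i : ℕ) + 0) ≡ ((i : ℕ) + m) [MOD (k + 1)] := by
        rw [Nat.ModEq, add_zero, Nat.mod_eq_of_lt i.isLt]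
        exact h
      have h2 := Nat.ModEq.add_left_cancel' _ h1
      exact (Nat.modEq_zero_iff_dvd).mp h2.symm
    · rintro ⟨c, rfl⟩
      rw [Nat.add_mul_mod_self_left, Nat.mod_eq_of_lt i.isLt]
  simp only [Matrix.trace, Matrix.diag, cyc_pow, h]
  split_ifs <;> simp

theorem trace_comb (a b : ℝ) (l : ℕ) :
    Matrix.trace ((a • (1 : Matrix (Fin (k + 1)) (Fin (k + 1)) ℝ) + b • cyc k) ^ l) =
      ∑ m ∈ range (l + 1), if (k + 1) ∣ m then
        b ^ m * a ^ (l - m) * (l.choose m : ℝ) * ((k + 1 : ℕ) : ℝ) else 0 := by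
  rw [add_comm (a • (1 : Matrix (Fin (k + 1)) (Fin (k + 1)) ℝ)) (b • cyc k)]
  have hc : Commute (b • cyc k) (a • (1 : Matrix (Fin (k + 1)) (Fin (k + 1)) ℝ)) := by
    apply Commute.smul_left
    apply Commute.smul_right
    exact Commute.one_right _
  rw [hc.add_pow, Matrix.trace_sum]
  refine Finset.sum_congr rfl fun m _ => ?_
  have : (b • cyc k) ^ m * (a • (1 : Matrix (Fin (k + 1)) (Fin (k + 1)) ℝ)) ^ (l - m) *
      (l.choose m : Matrix (Fin (k + 1)) (Fin (k + 1)) ℝ) =
      (b ^ m * a ^ (l - m) * (l.choose m : ℝ)) • cyc k ^ m := by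
    rw [smul_pow, smul_pow, one_pow, mul_smul_comm, mul_one, smul_smul, ← nsmul_eq_mul',
      ← Nat.cast_smul_eq_nsmul ℝ, smul_smul]
    congr 1
    ring
  rw [this, Matrix.trace_smul, trace_cyc_pow, smul_eq_mul]
  split_ifs <;> ring

end Cyc

theorem key_ineq (M : ℕ) (hM : 2 ≤ M) :
    1 / ((M + 1 : ℕ) : ℝ) - 1 / ((M + 1 : ℕ) : ℝ) ^ (M + 1) ≤ (1 - 1 / ((M + 1 : ℕ) : ℝ)) ^ (M + 1) := by
  have hN : (0 : ℝ) < ((M + 1 : ℕ) : ℝ) := by positivity
  have h1 : (1 - 1 / ((M + 1 : ℕ) : ℝ)) = (M : ℝ) / ((M + 1 : ℕ) : ℝ) := by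
    rw [eq_div_iff hN.ne', sub_mul, one_div_mul_cancel hN.ne']
    push_cast; ring
  have h2 : 1 / ((M + 1 : ℕ) : ℝ) - 1 / ((M + 1 : ℕ) : ℝ) ^ (M + 1) =
      (((M + 1 : ℕ) : ℝ) ^ M - 1) / ((M + 1 : ℕ) : ℝ) ^ (M + 1) := by
    rw [sub_div, pow_succ]
    congr 1
    rw [div_mul_eq_div_div, div_self (pow_pos hN M).ne']
  rw [h1, h2, div_pow]
  apply div_le_div_of_nonneg_right _ (pow_pos hN _).le
  rcases Nat.lt_or_ge M 3 with h3 | h3
  · have : M = 2 := by omega
    subst this
    norm_num
  · have hMpos : (0 : ℝ) < M := by positivity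
    have h4 : (1 + 1 / (M : ℝ)) ^ M ≤ 3 := by
      have h5 : 1 + 1 / (M : ℝ) ≤ Real.exp (1 / M) := by
        rw [add_comm]; exact Real.add_one_le_exp _
      calc (1 + 1 / (M : ℝ)) ^ M ≤ (Real.exp (1 / M)) ^ M :=
            pow_le_pow_left₀ (by positivity) h5 M
        _ = Real.exp 1 := by
            rw [← Real.exp_nat_mul]
            congr 1
            field_simp
        _ ≤ 3 := by
            have := Real.exp_one_lt_d9
            linarith
    have h6 : ((M + 1 : ℕ) : ℝ) ^ M = (M : ℝ) ^ M * (1 + 1 / (M : ℝ)) ^ M := by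
      rw [← mul_pow]
      congr 1
      push_cast
      field_simp
    have h7 : (3 : ℝ) ≤ M := by exact_mod_cast h3
    calc ((M + 1 : ℕ) : ℝ) ^ M - 1 ≤ ((M + 1 : ℕ) : ℝ) ^ M := by linarith
      _ = (M : ℝ) ^ M * (1 + 1 / (M : ℝ)) ^ M := h6
      _ ≤ (M : ℝ) ^ M * M := by
          apply mul_le_mul_of_nonneg_left (h4.trans h7) (by positivity)
      _ = (M : ℝ) ^ (M + 1) := by ring

theorem counterexample (k : ℕ) (hk : 2 ≤ k) :
    ∃ A : Matrix (Fin (k + 1)) (Fin (k + 1)) ℝ, Admissible k A ∧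
      (∀ l, 1 ≤ l → l ≤ k + 1 → (A ^ l).trace ≤ 1) ∧ 1 < (A ^ (k + 2)).trace := by
  set N : ℝ := ((k + 1 : ℕ) : ℝ) with hN
  have hN3 : 3 ≤ N := by
    rw [hN]
    have : (3 : ℕ) ≤ k + 1 := by omega
    exact_mod_cast this
  have hN0 : 0 < N := by linarith
  set q : ℝ := 1 / N - 1 / N ^ (k + 1) with hq
  have hq0 : 0 ≤ q := by
    rw [hq, sub_nonneg]
    apply one_div_le_one_div_of_le hN0
    calc N = N ^ 1 := (pow_one N).symm
      _ ≤ N ^ (k + 1) := pow_le_pow_right₀ (by linarith) (by omega)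
  obtain ⟨b, hb0, hb⟩ : ∃ b : ℝ, 0 ≤ b ∧ b ^ (k + 1) = q := by
    refine ⟨q ^ ((1 : ℝ) / ((k + 1 : ℕ) : ℝ)), Real.rpow_nonneg hq0 _, ?_⟩
    rw [← Real.rpow_natCast, ← Real.rpow_mul hq0, one_div_mul_cancel, Real.rpow_one]
    exact_mod_cast Nat.succ_ne_zero k
  have ha0 : 0 ≤ 1 / N := by positivity
  have hab : 1 / N + b ≤ 1 := by
    have h1 : b ^ (k + 1) ≤ (1 - 1 / N) ^ (k + 1) := by
      rw [hb, hq]
      exact key_ineq k hk
    have h2 : 0 ≤ 1 - 1 / N := by
      rw [sub_nonneg, div_le_one hN0]; linarith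
    have h3 : b ≤ 1 - 1 / N := le_of_pow_le_pow_left₀ (Nat.succ_ne_zero k) h2 h1
    linarith
  refine ⟨(1 / N) • (1 : Matrix (Fin (k + 1)) (Fin (k + 1)) ℝ) + b • cyc k, ?_, ?_, ?_⟩
  · -- admissibility
    have happ : ∀ i j : Fin (k + 1),
        ((1 / N) • (1 : Matrix (Fin (k + 1)) (Fin (k + 1)) ℝ) + b • cyc k) i j =
          (1 / N) * (if i = j then 1 else 0) +
            b * (if (j : ℕ) = ((i : ℕ) + 1) % (k + 1) then 1 else 0) := by
      intro i j
      simp [cyc, Matrix.one_apply]
    refine ⟨?_, ?_, ?_, ?_, ?_, ?_⟩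
    · intro i j
      rw [happ]
      apply add_nonneg
      · split_ifs <;> simp [hN0.le]
      · split_ifs <;> simp [hb0]
    · intro j
      simp_rw [happ]
      rw [Finset.sum_add_distrib, ← Finset.mul_sum, ← Finset.mul_sum]
      have h1 : ∀ i : Fin (k + 1), ((j : ℕ) = ((i : ℕ) + 1) % (k + 1)) ↔ 
          i = ⟨((j : ℕ) + k) % (k + 1), Nat.mod_lt _ (Nat.succ_pos k)⟩ := by
        intro i
        have hi := i.isLt
        have hj := j.isLt
        rw [Fin.ext_iff]
        dsimp only
        rcases Nat.eq_zero_or_pos (j : ℕ) with hj0 | hj0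
        · rw [hj0, zero_add, Nat.mod_eq_of_lt (Nat.lt_succ_self k)]
          rcases Nat.lt_or_ge ((i : ℕ) + 1) (k + 1) with h3 | h3
          · rw [Nat.mod_eq_of_lt h3]; omega
          · have h4 : (i : ℕ) + 1 = k + 1 := by omega
            rw [h4, Nat.mod_self]; omega
        · rw [show (j : ℕ) + k = ((j : ℕ) - 1) + (k + 1) by omega, Nat.add_mod_right,
            Nat.mod_eq_of_lt (show (j : ℕ) - 1 < k + 1 by omega)]
          rcases Nat.lt_or_ge ((i : ℕ) + 1) (k + 1) with h3 | h3
          · rw [Nat.mod_eq_of_lt h3]; omega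
          · have h4 : (i : ℕ) + 1 = k + 1 := by omega
            rw [h4, Nat.mod_self]; omega
      simp_rw [h1]
      simpa using hab
    · intro i
      simp_rw [happ]
      rw [Finset.sum_add_distrib, ← Finset.mul_sum, ← Finset.mul_sum]
      have h1 : ∀ j : Fin (k + 1), ((j : ℕ) = ((i : ℕ) + 1) % (k + 1)) ↔ 
          j = ⟨((i : ℕ) + 1) % (k + 1), Nat.mod_lt _ (Nat.succ_pos k)⟩ := by
        intro j
        rw [Fin.ext_iff]
      simp_rw [h1]
      simpa using hab
    · intro i j hij
      rw [happ, if_neg (fun h => by rw [h] at hij; omega), if_neg, mul_zero, mul_zero, add_zero]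
      intro h2
      have h3 := Nat.mod_le ((i : ℕ) + 1) (k + 1)
      omega
    · intro i j hij
      have := i.isLt
      omega
    · refine ⟨fun l => if l = 0 then 1 / N else if l = k then b else 0, ?_⟩
      intro l hl
      refine ⟨by dsimp only; split_ifs <;> first | exact ha0 | exact hb0 | exact le_rfl, ?_⟩
      intro i j hij
      have hi := i.isLt
      have hj := j.isLt
      rw [happ]
      dsimp only
      by_cases hl0 : l = 0
      · subst hl0
        have hij' : i = j := Fin.ext (by omega)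
        subst hij'
        rw [if_pos rfl, if_neg, mul_one, mul_zero, add_zero, if_pos rfl]
        intro h
        rcases Nat.lt_or_ge ((i : ℕ) + 1) (k + 1) with h3 | h3
        · rw [Nat.mod_eq_of_lt h3] at h; omega
        · have h4 : (i : ℕ) + 1 = k + 1 := by omega
          rw [h4, Nat.mod_self] at h; omega
      · rw [if_neg (fun h => by rw [h] at hij; omega), if_neg hl0, mul_zero, zero_add]
        by_cases hlk : l = k
        · rw [if_pos hlk, if_pos, mul_one]
          have h1 : (i : ℕ) = k := by omega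
          have h2 : (j : ℕ) = 0 := by omega
          rw [h1, h2, Nat.mod_self]
        · rw [if_neg hlk, if_neg, mul_zero]
          intro h2
          rcases Nat.lt_or_ge ((i : ℕ) + 1) (k + 1) with h3 | h3
          · rw [Nat.mod_eq_of_lt h3] at h2
            omega
          · have h4 : (i : ℕ) + 1 = k + 1 := by omega
            rw [h4, Nat.mod_self] at h2
            omega
  · -- the traces of the powers up to `k + 1`
    intro l hl1 hl2
    rw [trace_comb]
    rcases Nat.lt_or_ge l (k + 1) with hlt | hge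
    · rw [Finset.sum_eq_single 0]
      · simp only [dvd_zero, if_true, pow_zero, Nat.sub_zero, Nat.choose_zero_right, Nat.cast_one,
          one_mul, mul_one]
        rw [← hN, _root_.one_div_pow, div_mul_eq_mul_div, one_mul, div_le_one (pow_pos hN0 l)]
        calc N = N ^ 1 := (pow_one N).symm
          _ ≤ N ^ l := pow_le_pow_right₀ (by linarith) hl1
      · intro m hm hm0
        rw [if_neg]
        intro hd
        have := Nat.le_of_dvd (Nat.pos_of_ne_zero hm0) hd
        have := Finset.mem_range.mp hm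
        omega
      · intro h; simp at h
    · have hl : l = k + 1 := by omega
      subst hl
      rw [Finset.sum_range_succ, Finset.sum_eq_single 0]
      · simp only [dvd_zero, if_true, pow_zero, Nat.sub_zero, Nat.choose_zero_right, Nat.cast_one,
          one_mul, mul_one, dvd_refl, Nat.sub_self, Nat.choose_self]
        rw [hb, hq, ← hN, _root_.one_div_pow, ← add_mul]
        rw [add_sub_cancel, one_div_mul_cancel hN0.ne']
      · intro m hm hm0
        rw [if_neg]
        intro hd
        have := Nat.le_of_dvd (Nat.pos_of_ne_zero hm0) hd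
        have := Finset.mem_range.mp hm
        omega
      · intro h; simp at h
  · -- the trace of the power `k + 2`
    rw [trace_comb, Finset.sum_range_succ, Finset.sum_range_succ, Finset.sum_eq_single 0]
    · have hnd : ¬ (k + 1) ∣ (k + 2) := by
        intro hd
        have := (Nat.dvd_add_right (dvd_refl (k + 1))).mp (show (k + 1) ∣ (k + 1) + 1 from hd)
        have := Nat.le_of_dvd one_pos this
        omega
      rw [if_neg hnd, add_zero]
      simp only [dvd_zero, if_true, pow_zero, Nat.sub_zero, Nat.choose_zero_right, Nat.cast_one,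
        one_mul, mul_one, dvd_refl]
      have h1 : k + 2 - (k + 1) = 1 := by omega
      have h2 : (k + 2).choose (k + 1) = k + 2 := by
        rw [show k + 2 = (k + 1) + 1 from rfl, Nat.choose_succ_self_right]
      rw [h1, h2, hb, hq, ← hN, pow_one]
      have h3 : ((k + 2 : ℕ) : ℝ) = N + 1 := by rw [hN]; push_cast; ring
      rw [h3]
      have h4 : (1 / N) ^ (k + 2) * N + (1 / N - 1 / N ^ (k + 1)) * (1 / N) * (N + 1) * N =
          1 + (1 / N - 1 / N ^ k) := by
        rw [_root_.one_div_pow]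
        field_simp
        ring
      rw [h4]
      have h5 : 1 / N ^ k < 1 / N := by
        apply one_div_lt_one_div_of_lt hN0
        calc N = N ^ 1 := (pow_one N).symm
          _ < N ^ k := pow_lt_pow_right₀ (by linarith) (by omega)
      linarith
    · intro m hm hm0
      rw [if_neg]
      intro hd
      have := Nat.le_of_dvd (Nat.pos_of_ne_zero hm0) hd
      have := Finset.mem_range.mp hm
      omega
    · intro h; simp at h

/-! ### The bandwidths `0` and `1` -/

section Small

variable {n : ℕ}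

/-- The square of the Frobenius norm. -/
def frob (M : Matrix (Fin n) (Fin n) ℝ) : ℝ := ∑ i, ∑ j, M i j ^ 2

theorem frob_mul_le (M N : Matrix (Fin n) (Fin n) ℝ) : frob (M * N) ≤ frob M * frob N := by
  have h : ∀ i j, (M * N) i j ^ 2 ≤ (∑ a, M i a ^ 2) * ∑ a, N a j ^ 2 := fun i j => by
    rw [Matrix.mul_apply]
    exact Finset.sum_mul_sq_le_sq_mul_sq _ _ _
  calc frob (M * N) ≤ ∑ i, ∑ j, (∑ a, M i a ^ 2) * ∑ a, N a j ^ 2 :=
        Finset.sum_le_sum fun i _ => Finset.sum_le_sum fun j _ => h i j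
    _ = frob M * frob N := by
        simp_rw [← Finset.mul_sum, ← Finset.sum_mul]
        rw [frob, frob, Finset.sum_comm (f := fun i j => N i j ^ 2)]

theorem frob_nonneg (M : Matrix (Fin n) (Fin n) ℝ) : 0 ≤ frob M :=
  Finset.sum_nonneg fun _ _ => Finset.sum_nonneg fun _ _ => sq_nonneg _

theorem trace_mul_le (M N : Matrix (Fin n) (Fin n) ℝ) :
    Matrix.trace (M * N) ≤ (frob M + frob N) / 2 := by
  have h1 : Matrix.trace (M * N) = ∑ i, ∑ j, M i j * N j i := by
    simp [Matrix.trace, Matrix.diag, Matrix.mul_apply]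
  have h2 : frob N = ∑ i, ∑ j, N j i ^ 2 := by
    rw [frob, Finset.sum_comm]
  rw [h1, h2, frob, ← Finset.sum_add_distrib, Finset.sum_div]
  refine Finset.sum_le_sum fun i _ => ?_
  rw [← Finset.sum_add_distrib, Finset.sum_div]
  refine Finset.sum_le_sum fun j _ => ?_
  nlinarith [sq_nonneg (M i j - N j i)]

theorem trace_pow_le_one (S : Matrix (Fin n) (Fin n) ℝ) (hS : frob S ≤ 1) (l : ℕ) (hl : 2 ≤ l) :
    Matrix.trace (S ^ l) ≤ 1 := by
  have h : ∀ m, 1 ≤ m → frob (S ^ m) ≤ 1 := by
    intro m hm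
    induction m, hm using Nat.le_induction with
    | base => simpa using hS
    | succ m _ ih =>
      rw [pow_succ]
      exact (frob_mul_le _ _).trans (mul_le_one₀ ih (frob_nonneg _) hS)
  obtain ⟨m, rfl⟩ : ∃ m, l = m + 1 := ⟨l - 1, by omega⟩
  rw [pow_succ]
  have := trace_mul_le (S ^ m) S
  have := h m (by omega)
  linarith

/-- The matrix obtained by adding `t` to the entries next to the diagonal. -/
def shift (A : Matrix (Fin n) (Fin n) ℝ) (t : ℝ) : Matrix (Fin n) (Fin n) ℝ :=
  fun i j => if (i : ℕ) = j + 1 ∨ (j : ℕ) = i + 1 then A i j + t else A i j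

/-- The symmetrised matrix. -/
noncomputable def symm (A : Matrix (Fin n) (Fin n) ℝ) (t : ℝ) : Matrix (Fin n) (Fin n) ℝ :=
  fun i j => if (i : ℕ) = j + 1 ∨ (j : ℕ) = i + 1 then Real.sqrt ((A i j + t) * (A j i + t))
    else if i = j then A i j else 0

/-- The diagonal of the matrix which conjugates `shift A t` to `symm A t`. -/
noncomputable def dg (A : Matrix (Fin n) (Fin n) ℝ) (t : ℝ) (i : ℕ) : ℝ :=
  ∏ a ∈ range i, if h : a + 1 < n then
    Real.sqrt ((A ⟨a, by omega⟩ ⟨a + 1, h⟩ + t) / (A ⟨a + 1, h⟩ ⟨a, by omega⟩ + t)) else 1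

theorem dg_pos (A : Matrix (Fin n) (Fin n) ℝ) (hA : ∀ i j, 0 ≤ A i j) (t : ℝ) (ht : 0 < t) (i : ℕ) :
    0 < dg A t i := by
  unfold dg
  apply Finset.prod_pos
  intro a _
  split_ifs with h
  · apply Real.sqrt_pos.mpr
    have h1 := hA ⟨a, by omega⟩ ⟨a + 1, h⟩
    have h2 := hA ⟨a + 1, h⟩ ⟨a, by omega⟩
    apply div_pos <;> linarith
  · exact one_pos

theorem conj_eq (A : Matrix (Fin n) (Fin n) ℝ) (hA : ∀ i j, 0 ≤ A i j)
    (h1 : ∀ i j : Fin n, (i : ℕ) + 2 ≤ j → A i j = 0)
    (h2 : ∀ i j : Fin n, (j : ℕ) + 1 < i → A i j = 0) (t : ℝ) (ht : 0 < t) :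
    Matrix.diagonal (fun i : Fin n => dg A t i) * shift A t =
      symm A t * Matrix.diagonal (fun i : Fin n => dg A t i) := by
  ext i j
  rw [Matrix.diagonal_mul, Matrix.mul_diagonal]
  unfold shift symm
  have key : ∀ (i j : Fin n), (j : ℕ) = i + 1 →
      dg A t j = dg A t i * Real.sqrt ((A i j + t) / (A j i + t)) := by
    intro i j hij
    rw [hij, dg, Finset.prod_range_succ, dif_pos (by have := j.isLt; omega)]
    have e1 : (⟨(i : ℕ), by omega⟩ : Fin n) = i := rfl
    have e2 : (⟨(i : ℕ) + 1, by have := j.isLt; omega⟩ : Fin n) = j := Fin.ext hij.symm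
    rw [e2]
    rfl
  by_cases hij : (i : ℕ) = j + 1 ∨ (j : ℕ) = i + 1
  · rw [if_pos hij, if_pos hij]
    have ha : 0 < A i j + t := by have := hA i j; linarith
    have hb : 0 < A j i + t := by have := hA j i; linarith
    rcases hij with hij | hij
    · rw [key j i hij, Real.sqrt_div hb.le, Real.sqrt_mul ha.le]
      have hsa := Real.sqrt_pos.mpr ha
      have e : Real.sqrt (A i j + t) * Real.sqrt (A i j + t) = A i j + t := Real.mul_self_sqrt ha.le
      rw [mul_assoc]
      have : Real.sqrt (A j i + t) / Real.sqrt (A i j + t) * (A i j + t) =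
          Real.sqrt (A i j + t) * Real.sqrt (A j i + t) := by
        rw [div_mul_eq_mul_div, div_eq_iff hsa.ne']
        calc Real.sqrt (A j i + t) * (A i j + t) =
              Real.sqrt (A j i + t) * (Real.sqrt (A i j + t) * Real.sqrt (A i j + t)) := by rw [e]
          _ = _ := by ring
      rw [this]
      ring
    · rw [key i j hij, Real.sqrt_div ha.le, Real.sqrt_mul ha.le]
      have hsb := Real.sqrt_pos.mpr hb
      have e : Real.sqrt (A i j + t) * Real.sqrt (A i j + t) = A i j + t := Real.mul_self_sqrt ha.le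
      have : Real.sqrt (A i j + t) * Real.sqrt (A j i + t) *
          (Real.sqrt (A i j + t) / Real.sqrt (A j i + t)) = A i j + t := by
        field_simp
        nlinarith
      calc dg A t i * (A i j + t) = dg A t i * (Real.sqrt (A i j + t) * Real.sqrt (A j i + t) *
            (Real.sqrt (A i j + t) / Real.sqrt (A j i + t))) := by rw [this]
        _ = _ := by ring
  · rw [if_neg hij, if_neg hij]
    by_cases hd : i = j
    · subst hd
      rw [if_pos rfl, mul_comm]
    · rw [if_neg hd]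
      have hne : (i : ℕ) ≠ j := fun h => hd (Fin.ext h)
      have : A i j = 0 := by
        rcases Nat.lt_or_ge (i : ℕ) j with h | h
        · exact h1 i j (by omega)
        · exact h2 i j (by omega)
      rw [this, mul_zero, zero_mul]

theorem trace_shift (A : Matrix (Fin n) (Fin n) ℝ) (hA : ∀ i j, 0 ≤ A i j)
    (h1 : ∀ i j : Fin n, (i : ℕ) + 2 ≤ j → A i j = 0)
    (h2 : ∀ i j : Fin n, (j : ℕ) + 1 < i → A i j = 0) (t : ℝ) (ht : 0 < t) (l : ℕ) :
    Matrix.trace (shift A t ^ l) = Matrix.trace (symm A t ^ l) := by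
  set D : Matrix (Fin n) (Fin n) ℝ := Matrix.diagonal (fun i : Fin n => dg A t i) with hD
  set E : Matrix (Fin n) (Fin n) ℝ := Matrix.diagonal (fun i : Fin n => (dg A t i)⁻¹) with hE
  have hED : E * D = 1 := by
    rw [hE, hD, Matrix.diagonal_mul_diagonal, ← Matrix.diagonal_one]
    congr 1
    funext i
    exact inv_mul_cancel₀ (dg_pos A hA t ht i).ne'
  have hDE : D * E = 1 := by
    rw [hE, hD, Matrix.diagonal_mul_diagonal, ← Matrix.diagonal_one]
    congr 1
    funext i
    exact mul_inv_cancel₀ (dg_pos A hA t ht i).ne'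
  have hc : ∀ m, D * shift A t ^ m = symm A t ^ m * D := by
    intro m
    induction m with
    | zero => simp
    | succ m ih =>
      rw [pow_succ, ← mul_assoc, ih, mul_assoc, conj_eq A hA h1 h2 t ht, pow_succ, ← hD]
      simp only [mul_assoc]
  calc Matrix.trace (shift A t ^ l) = Matrix.trace (E * (D * shift A t ^ l)) := by
        rw [← mul_assoc, hED, one_mul]
    _ = Matrix.trace (E * (symm A t ^ l * D)) := by rw [hc]
    _ = Matrix.trace (symm A t ^ l * D * E) := by rw [Matrix.trace_mul_comm]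
    _ = Matrix.trace (symm A t ^ l) := by rw [mul_assoc, hDE, mul_one]

theorem continuous_shift (A : Matrix (Fin n) (Fin n) ℝ) : Continuous (shift A) := by
  apply continuous_pi; intro i
  apply continuous_pi; intro j
  unfold shift
  by_cases h : (i : ℕ) = j + 1 ∨ (j : ℕ) = i + 1
  · simp only [if_pos h]; fun_prop
  · simp only [if_neg h]; fun_prop

theorem continuous_symm (A : Matrix (Fin n) (Fin n) ℝ) : Continuous (symm A) := by
  apply continuous_pi; intro i
  apply continuous_pi; intro j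
  unfold symm
  by_cases h : (i : ℕ) = j + 1 ∨ (j : ℕ) = i + 1
  · simp only [if_pos h]; fun_prop
  · simp only [if_neg h]; fun_prop

theorem shift_zero (A : Matrix (Fin n) (Fin n) ℝ) : shift A 0 = A := by
  ext i j
  simp [shift]

theorem trace_symm (A : Matrix (Fin n) (Fin n) ℝ) (hA : ∀ i j, 0 ≤ A i j)
    (h1 : ∀ i j : Fin n, (i : ℕ) + 2 ≤ j → A i j = 0)
    (h2 : ∀ i j : Fin n, (j : ℕ) + 1 < i → A i j = 0) (l : ℕ) :
    Matrix.trace (A ^ l) = Matrix.trace (symm A 0 ^ l) := by
  have c1 : Continuous fun t => Matrix.trace (shift A t ^ l) :=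
    ((continuous_shift A).pow l).matrix_trace
  have c2 : Continuous fun t => Matrix.trace (symm A t ^ l) :=
    ((continuous_symm A).pow l).matrix_trace
  have e : Set.EqOn (fun t => Matrix.trace (shift A t ^ l)) (fun t => Matrix.trace (symm A t ^ l))
      (closure (Set.Ioi (0 : ℝ))) :=
    Set.EqOn.closure (fun t ht => trace_shift A hA h1 h2 t ht l) c1 c2
  have h0 : (0 : ℝ) ∈ closure (Set.Ioi (0 : ℝ)) := by
    rw [closure_Ioi]; exact Set.mem_Ici.mpr le_rfl
  have := e h0
  simpa [shift_zero] using this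

theorem frob_symm (A : Matrix (Fin n) (Fin n) ℝ) (t : ℝ) :
    frob (symm A t) = Matrix.trace (symm A t ^ 2) := by
  rw [pow_two]
  simp only [Matrix.trace, Matrix.diag, Matrix.mul_apply, frob]
  refine Finset.sum_congr rfl fun i _ => Finset.sum_congr rfl fun j _ => ?_
  have : symm A t j i = symm A t i j := by
    unfold symm
    by_cases h : (i : ℕ) = j + 1 ∨ (j : ℕ) = i + 1
    · rw [if_pos h, if_pos h.symm, mul_comm]
    · rw [if_neg h, if_neg (fun h' => h h'.symm)]
      by_cases hd : i = j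
      · subst hd; rfl
      · rw [if_neg hd, if_neg (Ne.symm hd)]
  rw [this, pow_two]

theorem small {k : ℕ} (hk : k ≤ 1) (A : Matrix (Fin n) (Fin n) ℝ) (hA : Admissible k A)
    (h : ∀ l, 1 ≤ l → l ≤ k + 1 → Matrix.trace (A ^ l) ≤ 1) (l : ℕ) (hl : 1 ≤ l) :
    Matrix.trace (A ^ l) ≤ 1 := by
  obtain ⟨h0, -, hrow, hup, hlow, -⟩ := hA
  have hlow1 : ∀ i j : Fin n, (j : ℕ) + 1 < i → A i j = 0 := fun i j hij => hlow i j (by omega)
  rcases Nat.eq_or_lt_of_le hl with h1 | h1
  · rw [← h1]; exact h 1 le_rfl (by omega)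
  · have htr2 : Matrix.trace (A ^ 2) ≤ 1 := by
      rcases Nat.eq_zero_or_pos k with hk0 | hk0
      · subst hk0
        have ht1 := h 1 le_rfl le_rfl
        rw [pow_one] at ht1
        refine le_trans ?_ ht1
        rw [pow_two]
        simp only [Matrix.trace, Matrix.diag, Matrix.mul_apply]
        refine Finset.sum_le_sum fun i _ => ?_
        rw [Finset.sum_eq_single i]
        · have h3 : A i i ≤ 1 :=
            (Finset.single_le_sum (f := fun j => A i j) (fun j _ => h0 i j) (mem_univ i)).trans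
              (hrow i)
          nlinarith [h0 i i]
        · intro j _ hj
          have hne : (j : ℕ) ≠ i := fun e => hj (Fin.ext e)
          rcases Nat.lt_or_ge (i : ℕ) j with h4 | h4
          · rw [hlow j i (by omega), mul_zero]
          · rw [hlow i j (by omega), zero_mul]
        · intro hi; exact absurd (mem_univ _) hi
      · exact h 2 (by norm_num) (by omega)
    rw [trace_symm A h0 hup hlow1 l]
    apply trace_pow_le_one _ _ l h1
    rw [frob_symm, ← trace_symm A h0 hup hlow1 2]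
    exact htr2

end Small

/-- For an integer `k ≥ 0` the implication of the question holds for all orders `n ≥ 1` and all
admissible `n × n` matrices if and only if `k ≤ 1`. In particular it does not hold for all `k`: for
every `k ≥ 2` it fails for an admissible matrix of order `k + 1`, for the exponent `k + 2`. -/
theorem result (k : ℕ) :
    ((∀ n : ℕ, 1 ≤ n → ∀ A : Matrix (Fin n) (Fin n) ℝ, Admissible k A →
      (∀ l, 1 ≤ l → l ≤ k + 1 → Matrix.trace (A ^ l) ≤ 1) →
      ∀ l, 1 ≤ l → Matrix.trace (A ^ l) ≤ 1) ↔ k ≤ 1) ∧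
    (2 ≤ k → ∃ A : Matrix (Fin (k + 1)) (Fin (k + 1)) ℝ, Admissible k A ∧
      (∀ l, 1 ≤ l → l ≤ k + 1 → Matrix.trace (A ^ l) ≤ 1) ∧ 1 < Matrix.trace (A ^ (k + 2))) := by
  refine ⟨⟨fun h => ?_, fun hk n _ A hA h l hl => small hk A hA h l hl⟩,
    fun hk => counterexample k hk⟩
  by_contra hk
  obtain ⟨A, hA, h1, h2⟩ := counterexample k (by omega)
  exact absurd (h (k + 1) (by omega) A hA h1 (k + 2) (by omega)) (not_le.mpr h2)

end Pool.Agent.Results.MP_e73184_al.TraceBounds
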